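import Pool.Agent.X139.MG.LowA

/-!
# The connectivity threshold of the mutual preference graph is `c = 1`

`costLaw n`: the costs `ω e` of the edges `e = s(i, j)` of the complete graph on `Fin n` are
independent and exponentially distributed with rate `1 / n`. `Pref k ω i j`: fewer than `k` of the
edges at `i` are cheaper than `{i, j}`, that is, `{i, j}` is one of the `k` cheapest edges at `i`.
`mutualGraph k ω`: the edges which are preferred by both their end points.
-/

set_option autoImplicit false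

namespace Pool.Agent.Results.MP_ba8b4a_pr.ConnectivityThreshold

open MeasureTheory ProbabilityTheory Filter Topology
open Pool.Agent.X139.MG

/-- the graph as a function of the comparisons of the costs -/
noncomputable def cmpGraph {n : ℕ} (k : ℕ) (b : Sym2 (Fin n) → Sym2 (Fin n) → Bool) :
    SimpleGraph (Fin n) where
  Adj i j := i ≠ j ∧
    (Finset.univ.filter (fun l : Fin n => l ≠ i ∧ b s(i, l) s(i, j) = true)).card < k ∧
    (Finset.univ.filter (fun l : Fin n => l ≠ j ∧ b s(j, l) s(j, i) = true)).card < k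
  symm := ⟨fun _ _ h => ⟨h.1.symm, h.2.2, h.2.1⟩⟩
  loopless := ⟨fun _ h => h.1 rfl⟩

lemma cmpGraph_eq {n : ℕ} (k : ℕ) (ω : Sym2 (Fin n) → ℝ) :
    cmpGraph k (fun e e' => decide (ω e < ω e')) = mutualGraph k ω := by
  ext i j
  show (_ ∧ _ ∧ _) ↔ (_ ∧ _ ∧ _)
  unfold Pref rank
  simp only [decide_eq_true_eq]

lemma measurable_connected (n k : ℕ) :
    MeasurableSet {ω : Sym2 (Fin n) → ℝ | (mutualGraph k ω).Connected} := by
  have h1 : Measurable (fun (ω : Sym2 (Fin n) → ℝ) (e e' : Sym2 (Fin n)) =>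
      decide (ω e < ω e')) := by
    rw [measurable_pi_iff]
    intro e
    rw [measurable_pi_iff]
    intro e'
    apply measurable_to_bool
    have e1 : (fun c : Sym2 (Fin n) → ℝ => decide (c e < c e')) ⁻¹' {true} =
        {c : Sym2 (Fin n) → ℝ | c e < c e'} := by
      ext c
      simp
    rw [e1]
    exact measurableSet_lt (measurable_pi_apply e) (measurable_pi_apply e')
  have h2 := h1 (MeasurableSet.of_discrete
    (s := {b : Sym2 (Fin n) → Sym2 (Fin n) → Bool | (cmpGraph k b).Connected}))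
  have e : {ω : Sym2 (Fin n) → ℝ | (mutualGraph k ω).Connected} =
      (fun (ω : Sym2 (Fin n) → ℝ) (e e' : Sym2 (Fin n)) => decide (ω e < ω e')) ⁻¹'
        {b : Sym2 (Fin n) → Sym2 (Fin n) → Bool | (cmpGraph k b).Connected} := by
    ext ω
    show _ ↔ (cmpGraph k (fun e e' => decide (ω e < ω e'))).Connected
    rw [cmpGraph_eq]
    exact Iff.rfl
  rw [e]
  exact h2

lemma to_ennreal (k : ℕ → ℕ) (r : ℝ)
    (h : Tendsto (fun n => (costLaw n).real {ω | (mutualGraph (k n) ω).Connected}) atTop (𝓝 r)) :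
    Tendsto (fun n => costLaw n {ω | (mutualGraph (k n) ω).Connected}) atTop
      (𝓝 (ENNReal.ofReal r)) := by
  refine (ENNReal.tendsto_ofReal h).congr' ?_
  filter_upwards [eventually_ge_atTop 1] with n hn
  have hn0 : (0 : ℝ) < n := by exact_mod_cast hn
  have hr0 : (0 : ℝ) < 1 / n := by positivity
  have := isProbabilityMeasure_expMeasure hr0
  have hP : IsProbabilityMeasure (costLaw n) := by
    unfold costLaw
    infer_instance
  exact ofReal_measureReal

theorem result :
    (∀ n k : ℕ, MeasurableSet {ω : Sym2 (Fin n) → ℝ | (mutualGraph k ω).Connected}) ∧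
    (∀ c : ℝ, 1 < c → Tendsto (fun n : ℕ =>
      costLaw n {ω | (mutualGraph ⌊c * Real.log n⌋₊ ω).Connected}) atTop (𝓝 1)) ∧
    (∀ c : ℝ, 0 < c → c < 1 → Tendsto (fun n : ℕ =>
      costLaw n {ω | (mutualGraph ⌊c * Real.log n⌋₊ ω).Connected}) atTop (𝓝 0)) ∧
    (∀ (c : ℝ) (k : ℕ → ℕ), 1 < c → (∀ᶠ n : ℕ in atTop, c * Real.log n ≤ k n) →
      Tendsto (fun n => costLaw n {ω | (mutualGraph (k n) ω).Connected}) atTop (𝓝 1)) ∧
    (∀ (c : ℝ) (k : ℕ → ℕ), c < 1 → (∀ᶠ n : ℕ in atTop, (k n : ℝ) ≤ c * Real.log n) →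
      Tendsto (fun n => costLaw n {ω | (mutualGraph (k n) ω).Connected}) atTop (𝓝 0)) := by
  have up : ∀ (c : ℝ) (k : ℕ → ℕ), 1 < c → (∀ᶠ n : ℕ in atTop, c * Real.log n ≤ k n) →
      Tendsto (fun n => costLaw n {ω | (mutualGraph (k n) ω).Connected}) atTop (𝓝 1) := by
    intro c k hc hk
    have := to_ennreal k 1 (upper c hc k hk)
    simpa using this
  have lo : ∀ (c : ℝ) (k : ℕ → ℕ), c < 1 → (∀ᶠ n : ℕ in atTop, (k n : ℝ) ≤ c * Real.log n) →
      Tendsto (fun n => costLaw n {ω | (mutualGraph (k n) ω).Connected}) atTop (𝓝 0) := by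
    intro c k hc hk
    have := to_ennreal k 0 (lower c hc k hk)
    simpa using this
  refine ⟨measurable_connected, ?_, ?_, up, lo⟩
  · intro c hc
    apply up ((1 + c) / 2) (fun n => ⌊c * Real.log n⌋₊) (by linarith)
    filter_upwards [tendsto_log_nat.eventually_ge_atTop (2 / (c - 1))] with n hn
    rw [div_le_iff₀ (by linarith)] at hn
    have := Nat.lt_floor_add_one (c * Real.log n)
    have h2 : ((⌊c * Real.log n⌋₊ : ℕ) : ℝ) + 1 ≥ c * Real.log n := this.le
    nlinarith
  · intro c hc0 hc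
    apply lo c (fun n => ⌊c * Real.log n⌋₊) hc
    filter_upwards [eventually_ge_atTop 1] with n hn
    have hL0 : 0 ≤ Real.log n := Real.log_nonneg (by exact_mod_cast hn)
    exact Nat.floor_le (by positivity)

end Pool.Agent.Results.MP_ba8b4a_pr.ConnectivityThreshold
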